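import Pool.Agent.helper26.IM.SpecA

set_option autoImplicit false

open Finset Pool.Agent.RRank Pool.Agent.helper35.MR

namespace Pool.Agent.helper26.IM

theorem UPG_ne1 {X Y Z K : Type} [Field K] {T : X → Y → Z → K} {r : ℕ} (h : ¬ S3 T r) :
    Nonempty X ∧ Nonempty Y ∧ Nonempty Z := by
  have key : ∀ hh : (∀ x : X, ∀ y : Y, ∀ z : Z, False), False := by
    intro hh
    apply h
    exact ⟨0, 0, 0, fun i => i.elim0, fun i => i.elim0, fun i => i.elim0, fun i => i.elim0,
      fun i => i.elim0, fun i => i.elim0, Nat.zero_le _, fun x y z => (hh x y z).elim⟩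
  by_contra hcon
  apply key
  intro x y z
  exact hcon ⟨⟨x⟩, ⟨y⟩, ⟨z⟩⟩

theorem UPG (hCPX : CPX_stmt) (hLS3 : LS3_stmt) (hLOS : LOS_stmt) (hNFC : NFC_stmt) :
    UPG_stmt := by
  classical
  intro l K _ X Y Z T hT hF
  constructor
  · intro r hS
    obtain ⟨G, N, hGN⟩ := hCPX r
    have hex : ∀ n : ℕ, ∃ (x : Fin N → X n) (y : Fin N → Y n) (z : Fin N → Z n),
        G ≤ n → ¬ S3 (fun i j k => T n (x i) (y j) (z k)) r := by
      intro n
      by_cases hn : G ≤ n
      · have h1 : ¬ S3 (T n) G := fun h => hT n (h.mono hn)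
        obtain ⟨x, y, z, h2⟩ := hGN (K n) (K n) (RingHom.id (K n)) (X n) (Y n) (Z n) (T n) h1
        exact ⟨x, y, z, fun _ => h2⟩
      · obtain ⟨⟨x⟩, ⟨y⟩, ⟨z⟩⟩ := UPG_ne1 (hT n)
        exact ⟨fun _ => x, fun _ => y, fun _ => z, fun h => absurd h hn⟩
    choose x y z hxyz using hex
    have h1 := hS.comp (fun (i : Fin N) (n : ℕ) => x n i) (fun (i : Fin N) (n : ℕ) => y n i)
      (fun (i : Fin N) (n : ℕ) => z n i)
    have h2 := hLS3 ℕ (Filter.hyperfilter ℕ) K (Fin N) (Fin N) (Fin N)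
      (fun n i j k => T n (x n i) (y n j) (z n k)) r h1
    have h3 : ∀ᶠ n in (Filter.hyperfilter ℕ : Filter ℕ), G ≤ n := by
      apply Filter.hyperfilter_le_cofinite
      rw [Nat.cofinite_eq_atTop]
      exact Filter.eventually_ge_atTop G
    obtain ⟨n, hn1, hn2⟩ := (h2.and h3).exists
    exact hxyz n hn2 hn1
  · rintro ⟨x, y, z, h⟩
    have h1 : ¬ NF (fun i j k => UF.mk (Filter.hyperfilter ℕ)
        (fun n => T n (x i n) (y j n) (z k n))) := by
      intro hn
      exact ((hNFC _ (Fin l) _).1 hn) h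
    have h2 : ¬ ∀ᶠ n in (Filter.hyperfilter ℕ : Filter ℕ),
        NF (fun i j k => T n (x i n) (y j n) (z k n)) := by
      intro hn
      exact h1 (hLOS ℕ (Filter.hyperfilter ℕ) K (Fin l)
        (fun n i j k => T n (x i n) (y j n) (z k n)) hn)
    rw [Filter.not_eventually] at h2
    obtain ⟨n, hn⟩ := h2.exists
    rw [hNFC, not_not] at hn
    exact hF n ⟨fun i => x i n, fun i => y i n, fun i => z i n, hn⟩

end Pool.Agent.helper26.IM
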